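import Pool.Agent.Lib.helper19.Elus3

set_option autoImplicit false

namespace Pool.Agent.Results.MP_5af839_lc.No

/-- The position after `n` turns of the run `r`; `r m` is the pair asked by Seeker at turn `m`
together with the answer of Hider (`true` = green, `false` = red). -/
def hist (r : ℕ → Sym2 ℕ × Bool) (n : ℕ) : List (Sym2 ℕ × Bool) := (List.range n).map r

/-- Seeker only asks pairs of distinct vertices that are still white. -/
def LegalRun (r : ℕ → Sym2 ℕ × Bool) : Prop :=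
  (∀ n, ¬ (r n).1.IsDiag) ∧ Function.Injective fun n => (r n).1

/-- Green pairs at the end of the run. -/
def green (r : ℕ → Sym2 ℕ × Bool) : Set (Sym2 ℕ) := {e | ∃ n, r n = (e, true)}

/-- White pairs at the end of the run. -/
def white (r : ℕ → Sym2 ℕ × Bool) : Set (Sym2 ℕ) := {e | ¬ e.IsDiag ∧ ∀ n, (r n).1 ≠ e}

/-- The graphs between the green pairs and the green or white pairs. -/
def poss (r : ℕ → Sym2 ℕ × Bool) : Set (SimpleGraph ℕ) :=
  {H | green r ⊆ H.edgeSet ∧ H.edgeSet ⊆ green r ∪ white r}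

/-- Seeker wins the run. -/
def SeekerWins (S : Set (SimpleGraph ℕ)) (r : ℕ → Sym2 ℕ × Bool) : Prop :=
  (white r).Nonempty ∧ (poss r ⊆ S ∨ poss r ∩ S = ∅)

/-- A winning strategy of Seeker. -/
def SeekerStrat (S : Set (SimpleGraph ℕ)) (σ : List (Sym2 ℕ × Bool) → Sym2 ℕ) : Prop :=
  ∀ r : ℕ → Sym2 ℕ × Bool, (∀ n, (r n).1 = σ (hist r n)) → LegalRun r ∧ SeekerWins S r

/-- A winning strategy of Hider. -/
def HiderStrat (S : Set (SimpleGraph ℕ)) (τ : List (Sym2 ℕ × Bool) → Sym2 ℕ → Bool) : Prop :=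
  ∀ r : ℕ → Sym2 ℕ × Bool, LegalRun r → (∀ n, (r n).2 = τ (hist r n) (r n).1) → ¬ SeekerWins S r

open Pool.Agent.Lib.helper19 in
theorem result : ∃ S : Set (SimpleGraph ℕ),
    (∀ G G' : SimpleGraph ℕ, Nonempty (G ≃g G') → G ∈ S → G' ∈ S) ∧
    (¬ ∃ σ, SeekerStrat S σ) ∧ ¬ ∃ τ, HiderStrat S τ := by
  obtain ⟨Z, h1, h2⟩ := Elus.undetermined
  exact ⟨Elus.prop Z, fun _ _ ⟨φ⟩ h => Elus.prop_iso Z φ h, h1, h2⟩

end Pool.Agent.Results.MP_5af839_lc.No
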